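import Pool.Agent.Run7.h534.Kak.Euc
import Pool.Agent.Run7.h523.FT.All

set_option autoImplicit false

/-!
# MP_ac5134: the Kakeya inequality in tube form for translates whose axes form wave fronts

Work in `ℝ^n = ℝ^d × ℝ`, `n = d + 1 ≥ 3`, with its Euclidean norm (`Space d`), and let `P` be the
paraboloid `{(ω, |ω|²)}`, `|ω| ≤ 1`.  The box dual to the cap at `ω` is `box N (nor ω) f 0`: its long
side `N²` is in the direction of the unit normal `nor ω = (-2ω, 1)/√(1+4|ω|²)` and its other sides `N`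
are in the directions of an arbitrary orthonormal frame `f` of the orthogonal complement.

The translates of the boxes form a *front family* if for some unit vector `u` the angles of the
normals with `u` are less than a right angle and pairwise equal or at least `σ/N` apart, and if for
two axes of the same inclination to `u`, whose directions are at distance at most `ρ`, any two of
their points `x`, `y` at distance at most `ρ N²` satisfy `|⟪u, x - y⟫| ≤ ⟪u, nor ω⟫ |x - y|`: locally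
the axes of a given inclination are rays of one wave front, no point of a ray is reached earlier along
another one.  With `u` the axis of the paraboloid the inclinations are given by `|ω|`, and nothing is
supposed about the translates of caps with different `|ω|`.  Then

1. the inequality of Q1 holds for all `p` in `[1, ∞]`, with one constant `C N^ε`, for every `ε > 0`;
2. for every `q > n/(n-1)` it holds for all `p` in `[q, ∞]` with one constant `C`, without any loss.

The inequality for tubes used here is `MP_850839_an.FrontTubes` (helper523), library `Run7/h523/FT`.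
-/

open MeasureTheory Set Filter Topology ENNReal NNReal Metric

namespace Pool.Agent.Results.MP_ac5134_an.FrontTranslates

/-- Euclidean space `ℝ^d`. -/
abbrev Vec (d : ℕ) : Type := EuclideanSpace ℝ (Fin d)

/-- Euclidean space `ℝ^{d+1}`, written as `ℝ^d × ℝ` with the Euclidean norm. -/
abbrev Space (d : ℕ) : Type := WithLp 2 (Vec d × ℝ)

/-- The unit vector `(v, 1)/√(1+|v|²)`. -/
noncomputable def dir {d : ℕ} (v : Vec d) : Space d :=
  (√(1 + ‖v‖ ^ 2))⁻¹ • WithLp.toLp 2 (v, (1:ℝ))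

/-- The unit normal `(-2ω, 1)/√(1+4|ω|²)` of the paraboloid at the point `(ω, |ω|²)`. -/
noncomputable def nor {d : ℕ} (ω : Vec d) : Space d := dir (-(2 : ℝ) • ω)

/-- The box with centre `a`, side `N²` in the direction `e` and sides `N` in the directions `f j`. -/
def box {d : ℕ} (N : ℝ) (e : Space d) (f : Fin d → Space d) (a : Space d) : Set (Space d) :=
  {y | |inner ℝ e (y - a)| ≤ N ^ 2 / 2 ∧ ∀ j, |inner ℝ (f j) (y - a)| ≤ N / 2}

/-- The caps have centres `ω i` in the closed unit ball, `σ/N`-separated and at least `κ N^d` in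
number, and `f i` is an orthonormal frame of the orthogonal complement of the normal at `ω i`. -/
def Caps {d : ℕ} {ι : Type} [Fintype ι] (σ κ N : ℝ) (ω : ι → Vec d) (f : ι → Fin d → Space d) : Prop :=
  (∀ i, ‖ω i‖ ≤ 1) ∧ (∀ i j, i ≠ j → σ / N ≤ ‖ω i - ω j‖) ∧ κ * N ^ d ≤ (Fintype.card ι : ℝ) ∧
    ∀ i, Orthonormal ℝ (Fin.cons (nor (ω i)) (f i) : Fin (d + 1) → Space d)

/-- The sum of the indicators of the boxes of the caps with centres `a i`. -/
noncomputable def boxSum {d : ℕ} {ι : Type} [Fintype ι] (N : ℝ) (ω : ι → Vec d)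
    (f : ι → Fin d → Space d) (a : ι → Space d) (y : Space d) : ℝ :=
  ∑ i, (box N (nor (ω i)) (f i) (a i)).indicator (fun _ => (1 : ℝ)) y

/-- The inequality of Q1 with the constant `C` at the exponent `p`, for the boxes with centres `a i`. -/
def Ineq {d : ℕ} {ι : Type} [Fintype ι] (C N : ℝ) (p : ℝ≥0∞) (ω : ι → Vec d)
    (f : ι → Fin d → Space d) (a : ι → Space d) : Prop :=
  eLpNorm (boxSum N ω f a) p volume ≤ ENNReal.ofReal C * eLpNorm (boxSum N ω f 0) p volume

/-- Front families: the axes of the boxes are the segments `{a i + s • nor (ω i) : |s| ≤ N²/2}`. -/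
structure Front {d : ℕ} {ι : Type} (ρ σ N : ℝ) (u : Space d) (ω : ι → Vec d) (a : ι → Space d) :
    Prop where
  norm_axis : ‖u‖ = 1
  inner_pos : ∀ i, 0 < inner ℝ u (nor (ω i))
  /-- two inclinations are equal or at least `σ / N` apart -/
  levels : ∀ i j, inner ℝ u (nor (ω i)) = inner ℝ u (nor (ω j)) ∨
    σ / N ≤ |InnerProductGeometry.angle u (nor (ω i)) - InnerProductGeometry.angle u (nor (ω j))|
  /-- the local front condition inside each level -/
  front : ∀ i j, inner ℝ u (nor (ω i)) = inner ℝ u (nor (ω j)) → ‖nor (ω i) - nor (ω j)‖ ≤ ρ →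
    ∀ s s' : ℝ, |s| ≤ N ^ 2 / 2 → |s'| ≤ N ^ 2 / 2 →
      ‖(a i + s • nor (ω i)) - (a j + s' • nor (ω j))‖ ≤ ρ * N ^ 2 →
      |inner ℝ u ((a i + s • nor (ω i)) - (a j + s' • nor (ω j)))| ≤
        inner ℝ u (nor (ω i)) * ‖(a i + s • nor (ω i)) - (a j + s' • nor (ω j))‖

/-- The moments of the sum of the boxes. -/
theorem moments (d : ℕ) (hd : 2 ≤ d) (ρ σ : ℝ) (hρ : 0 < ρ) (hσ : 0 < σ) (hσ1 : σ ≤ 1) :
    Run7.h534.Cmp.Moments d (fun (N : ℝ) (ι : Type) [Fintype ι] (ω : ι → Vec d)
      (f : ι → Fin d → Space d) (a : ι → Space d) => (∀ i, ‖ω i‖ ≤ 1) ∧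
        (∀ i j, i ≠ j → σ / N ≤ ‖ω i - ω j‖) ∧
        (∀ i, Orthonormal ℝ (Fin.cons (nor (ω i)) (f i) : Fin (d + 1) → Space d)) ∧
        ∃ u, Front ρ σ N u ω a) := by
  classical
  intro q hq
  have hd0 : (0 : ℝ) < d := by exact_mod_cast (by omega : 0 < d)
  have hq0 : 0 < q := lt_trans (by positivity) hq
  obtain ⟨C, hC, h⟩ := Run7.h523.FT.main_all (d := d) (q := q) (ρ := ρ) (K := 2 * d / σ) hd hq hρ
  refine ⟨C ^ q * (σ / 4) ^ d, by positivity, ?_⟩
  intro N hN ι _ _ ω f a hPa
  obtain ⟨h1, h2, h3, u, hu⟩ := hPa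
  have hN0 : 0 < N := by linarith
  set φ := Run7.h534.Cv.iso d with hφ
  have hin : ∀ u v : Space d, inner ℝ (φ u) (φ v) = inner ℝ u v := φ.inner_map_map
  set δ : ℝ := σ / (4 * N) with hδ
  have hδ0 : 0 < δ := by positivity
  have hδ1 : δ ≤ 1 := by
    rw [hδ, div_le_one (by positivity)]; linarith
  have hKδ : 2 * d / σ * δ = d / (2 * N) := by rw [hδ]; field_simp; ring
  set c : ℝ := (N ^ 2)⁻¹ with hc
  have hc0 : 0 < c := by positivity
  have hcN : c * N ^ 2 = 1 := by rw [hc]; field_simp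
  have hang : ∀ i, InnerProductGeometry.angle (φ u) (φ (nor (ω i))) =
      InnerProductGeometry.angle u (nor (ω i)) := by
    intro i
    unfold InnerProductGeometry.angle
    rw [hin, φ.norm_map, φ.norm_map]
  have hF : Run7.h523.FT.Front ρ δ (φ u) (fun i => c • φ (a i)) (fun i => φ (nor (ω i)))
      (Finset.univ : Finset ι) := by
    refine ⟨by rw [φ.norm_map]; exact hu.norm_axis, ?_, ?_, ?_, ?_, ?_⟩
    · intro i _
      rw [φ.norm_map]
      exact Pool.Agent.H810R3.Tub.norm_dir _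
    · intro i _
      rw [hin]
      exact hu.inner_pos i
    · intro i _ j _ hij
      exact Run7.h534.Kak.nor_sep (h1 i) (h1 j) (h2 i j hij)
    · intro i _ j _
      rw [hang, hang, hin, hin]
      refine (hu.levels i j).imp_right fun h => ?_
      refine le_trans ?_ h
      rw [hδ]
      gcongr
      linarith
    · intro i _ j _ hij hle s hs s' hs' hdist
      rw [hin, hin] at hij
      rw [← map_sub, φ.norm_map] at hle
      have hs1 : |s * N ^ 2| ≤ N ^ 2 / 2 := by
        rw [abs_mul, abs_of_pos (by positivity : (0:ℝ) < N ^ 2)]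
        have : |s| ≤ 1 / 2 := abs_le.2 ⟨by linarith [hs.1], hs.2⟩
        calc |s| * N ^ 2 ≤ 1 / 2 * N ^ 2 := by gcongr
          _ = _ := by ring
      have hs2 : |s' * N ^ 2| ≤ N ^ 2 / 2 := by
        rw [abs_mul, abs_of_pos (by positivity : (0:ℝ) < N ^ 2)]
        have : |s'| ≤ 1 / 2 := abs_le.2 ⟨by linarith [hs'.1], hs'.2⟩
        calc |s'| * N ^ 2 ≤ 1 / 2 * N ^ 2 := by gcongr
          _ = _ := by ring
      set x : Space d := (a i + (s * N ^ 2) • nor (ω i)) - (a j + (s' * N ^ 2) • nor (ω j)) with hx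
      have e1 : (c • φ (a i) + s • φ (nor (ω i))) - (c • φ (a j) + s' • φ (nor (ω j))) = c • φ x := by
        rw [hx, map_sub, map_add, map_add, map_smul, map_smul, smul_sub, smul_add, smul_add,
          smul_smul, smul_smul]
        have e2 : c * (s * N ^ 2) = s := by rw [mul_left_comm, hcN, mul_one]
        have e3 : c * (s' * N ^ 2) = s' := by rw [mul_left_comm, hcN, mul_one]
        rw [e2, e3]
      rw [e1, norm_smul, φ.norm_map, Real.norm_of_nonneg hc0.le] at hdist
      rw [e1, inner_smul_right, hin, hin, norm_smul, φ.norm_map, Real.norm_of_nonneg hc0.le,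
        abs_mul, abs_of_pos hc0]
      have h5 : ‖x‖ ≤ ρ * N ^ 2 := by
        have h6 : N ^ 2 * (c * ‖x‖) ≤ N ^ 2 * ρ := by gcongr
        have h7 : N ^ 2 * (c * ‖x‖) = ‖x‖ := by rw [← mul_assoc, mul_comm (N ^ 2), hcN, one_mul]
        linarith
      have h6 := hu.front i j hij hle (s * N ^ 2) (s' * N ^ 2) hs1 hs2 h5
      calc c * |inner ℝ u x| ≤ c * (inner ℝ u (nor (ω i)) * ‖x‖) := by gcongr
        _ = inner ℝ u (nor (ω i)) * (c * ‖x‖) := by ring
  have hT := h δ hδ0 hδ1 ι (φ u) (fun i => c • φ (a i)) (fun i => φ (nor (ω i))) Finset.univ hF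
  rw [hKδ, Finset.card_univ] at hT
  have hTi : ∫⁻ z, Run7.h523.FT.Fn (d / (2 * N)) (fun i => c • φ (a i)) (fun i => φ (nor (ω i)))
      Finset.univ (-1 / 2) (1 / 2) z ^ q ≤ ENNReal.ofReal
        (C ^ q * (δ ^ d * (Fintype.card ι : ℝ) ^ (q - 1 / d))) := by
    have h4 := Run7.h523.FT.int_of_eLp hq0 (by positivity) hT
    refine h4.trans (le_of_eq ?_)
    congr 1
    rw [Real.mul_rpow hC.le (by positivity), Real.mul_rpow (by positivity) (by positivity),
      ← Real.rpow_mul hδ0.le, ← Real.rpow_mul (Nat.cast_nonneg _), div_mul_cancel₀ _ hq0.ne',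
      Real.rpow_natCast]
    congr 3
    field_simp
  have hle : ∀ z, Run7.h534.Kak.Et (d / (2 * N)) (fun i => c • φ (a i)) (fun i => φ (nor (ω i))) z ≤
      Run7.h523.FT.Fn (d / (2 * N)) (fun i => c • φ (a i)) (fun i => φ (nor (ω i)))
        Finset.univ (-1 / 2) (1 / 2) z := by
    intro z
    unfold Run7.h534.Kak.Et Run7.h523.FT.Fn
    refine Finset.sum_le_sum fun i _ => ?_
    by_cases hz : z ∈ Run7.h534.Kak.etube (d / (2 * N)) (c • φ (a i)) (φ (nor (ω i)))
    · rw [indicator_of_mem hz, indicator_of_mem]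
      refine ⟨inner ℝ (z - c • φ (a i)) (φ (nor (ω i))), ?_, ?_⟩
      · have := abs_le.1 hz.1
        rw [mem_Icc]
        constructor <;> linarith
      · rw [← sub_sub]
        exact hz.2
    · rw [indicator_of_notMem hz]
      exact zero_le
  calc ∫⁻ y, Pool.Agent.H810R3.Tub.Fb N ω f a y ^ q
      ≤ ENNReal.ofReal ((N ^ 2) ^ (d + 1)) *
        ∫⁻ z, Run7.h534.Kak.Et (d / (2 * N)) (fun i => c • φ (a i)) (fun i => φ (nor (ω i))) z ^ q :=
        by
          have h8 := Run7.h534.Kak.boxes_le_tubes hq0 hN hc0 hcN.le (r := d / (2 * N)) (le_of_eq (by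
            rw [hc]; field_simp)) ω f a h3
          rwa [hc, inv_inv] at h8
    _ ≤ ENNReal.ofReal ((N ^ 2) ^ (d + 1)) *
        ENNReal.ofReal (C ^ q * (δ ^ d * (Fintype.card ι : ℝ) ^ (q - 1 / d))) := by
        gcongr
        exact (lintegral_mono fun z => ENNReal.rpow_le_rpow (hle z) hq0.le).trans hTi
    _ = _ := by
        rw [← ENNReal.ofReal_mul (by positivity)]
        congr 1
        have e5 : (N ^ 2) ^ (d + 1) * δ ^ d = (σ / 4) ^ d * N ^ (d + 2) := by
          rw [hδ, div_pow, div_pow, mul_pow, ← pow_mul]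
          have : 2 * (d + 1) = d + (d + 2) := by ring
          rw [this, pow_add N d (d + 2)]
          field_simp
        calc (N ^ 2) ^ (d + 1) * (C ^ q * (δ ^ d * (Fintype.card ι : ℝ) ^ (q - 1 / d)))
            = C ^ q * ((N ^ 2) ^ (d + 1) * δ ^ d) * (Fintype.card ι : ℝ) ^ (q - 1 / d) := by ring
          _ = _ := by rw [e5]; ring

/-- **The Kakeya inequality in tube form for front families**, `n = d + 1 ≥ 3`: all exponents with
the loss `N ^ ε`, all large exponents without loss. -/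
theorem result (d : ℕ) (hd : 2 ≤ d) (ρ σ κ : ℝ) (hρ : 0 < ρ) (hσ : 0 < σ) (hσ1 : σ ≤ 1)
    (hκ : 0 < κ) :
    (∀ ε : ℝ, 0 < ε → ∃ C : ℝ, 0 < C ∧ ∀ N : ℝ, 1 ≤ N → ∀ (ι : Type) [Fintype ι] (ω : ι → Vec d)
      (f : ι → Fin d → Space d) (a : ι → Space d), Caps σ κ N ω f → (∃ u, Front ρ σ N u ω a) →
      ∀ p : ℝ≥0∞, 1 ≤ p → Ineq (C * N ^ ε) N p ω f a) ∧
    (∀ q : ℝ, ((d : ℝ) + 1) / d < q → ∃ C : ℝ, 0 < C ∧ ∀ N : ℝ, 1 ≤ N → ∀ (ι : Type) [Fintype ι]
      (ω : ι → Vec d) (f : ι → Fin d → Space d) (a : ι → Space d), Caps σ κ N ω f →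
      (∃ u, Front ρ σ N u ω a) → ∀ p : ℝ≥0∞, ENNReal.ofReal q ≤ p → Ineq C N p ω f a) := by
  have hP := moments d hd ρ σ hρ hσ hσ1
  constructor
  · intro ε hε
    obtain ⟨C, hC, h⟩ := Run7.h534.Cmp.compare_all (by omega) hP hε hκ
    refine ⟨C, hC, ?_⟩
    intro N hN ι _ ω f a hcaps hfr p hp
    exact h N hN ι ω f a ⟨hcaps.1, hcaps.2.1, hcaps.2.2.2, hfr⟩ hcaps.2.2.1 hcaps.2.2.2 p hp
  · intro q hq
    obtain ⟨C, hC, h⟩ := Run7.h534.Cmp.compare_sharp (by omega) hP hq hκ
    refine ⟨C, hC, ?_⟩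
    intro N hN ι _ ω f a hcaps hfr p hp
    exact h N hN ι ω f a ⟨hcaps.1, hcaps.2.1, hcaps.2.2.2, hfr⟩ hcaps.2.2.1 hcaps.2.2.2 p hp

end Pool.Agent.Results.MP_ac5134_an.FrontTranslates
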