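import Pool.Agent.Run7.h534.Kak.Shift

set_option autoImplicit false

/-!
# MP_ac5134: the Kakeya inequality in tube form for boxes translated at random in codimension two

Work in `ℝ^n = ℝ^d × ℝ`, `n = d + 1 ≥ 3`, with its Euclidean norm (`Space d`), and let `P` be the
paraboloid `{(ω, |ω|²)}`, `|ω| ≤ 1`.  The box dual to the cap at `ω` is `box N (nor ω) f 0`: its long
side `N²` is in the direction of the unit normal `nor ω = (-2ω, 1)/√(1+4|ω|²)` and its other sides `N`
are in the directions of an arbitrary orthonormal frame `f` of the orthogonal complement.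

Translate the boxes by arbitrary vectors `a i`, and then by the vectors `N² J (X i)`, where `J` is any
linear isometry of `ℝ^(n-2)` into `ℝ^n` and the `X i` are pairwise independent random vectors of
`ℝ^(n-2)` whose laws are bounded by `A` times Lebesgue measure: in `ℝ^3` the boxes are moved at random
only in one fixed direction, in general their projections to a plane are not moved at all.  On average

1. the inequality of Q1 holds for all `p` in `[1, ∞)`, for the `p`-th powers of the norms, with the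
   factor `C A (1 + log (1 + M))²`, `M ≤ C N^d` the number of the boxes;
2. for every `q > n/(n-1)` it holds for all `p` in `[q, ∞)` with the factor `C A`, without any loss.

The inequality for tubes used here is `MP_850839_an.RandomShiftsCodimensionTwo` (helper750).
-/

open MeasureTheory Set Filter Topology ENNReal NNReal Metric ProbabilityTheory

namespace Pool.Agent.Results.MP_ac5134_an.RandomTranslates

/-- Euclidean space `ℝ^d`. -/
abbrev Vec (d : ℕ) : Type := EuclideanSpace ℝ (Fin d)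

/-- Euclidean space `ℝ^{d+1}`, written as `ℝ^d × ℝ` with the Euclidean norm. -/
abbrev Space (d : ℕ) : Type := WithLp 2 (Vec d × ℝ)

/-- The unit vector `(v, 1)/√(1+|v|²)`. -/
noncomputable def dir {d : ℕ} (v : Vec d) : Space d :=
  (√(1 + ‖v‖ ^ 2))⁻¹ • WithLp.toLp 2 (v, (1:ℝ))

/-- The unit normal `(-2ω, 1)/√(1+4|ω|²)` of the paraboloid at the point `(ω, |ω|²)`. -/
noncomputable def nor {d : ℕ} (ω : Vec d) : Space d := dir (-(2 : ℝ) • ω)

/-- The box with centre `a`, side `N²` in the direction `e` and sides `N` in the directions `f j`. -/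
def box {d : ℕ} (N : ℝ) (e : Space d) (f : Fin d → Space d) (a : Space d) : Set (Space d) :=
  {y | |inner ℝ e (y - a)| ≤ N ^ 2 / 2 ∧ ∀ j, |inner ℝ (f j) (y - a)| ≤ N / 2}

/-- The caps have centres `ω i` in the closed unit ball, `σ/N`-separated and at least `κ N^d` in
number, and `f i` is an orthonormal frame of the orthogonal complement of the normal at `ω i`. -/
def Caps {d : ℕ} {ι : Type} [Fintype ι] (σ κ N : ℝ) (ω : ι → Vec d) (f : ι → Fin d → Space d) : Prop :=
  (∀ i, ‖ω i‖ ≤ 1) ∧ (∀ i j, i ≠ j → σ / N ≤ ‖ω i - ω j‖) ∧ κ * N ^ d ≤ (Fintype.card ι : ℝ) ∧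
    ∀ i, Orthonormal ℝ (Fin.cons (nor (ω i)) (f i) : Fin (d + 1) → Space d)

/-- The `p`-th power of the `L^p` norm of the sum of the indicators of the boxes with centres `a i`. -/
noncomputable def moment {d : ℕ} {ι : Type} [Fintype ι] (p N : ℝ) (ω : ι → Vec d)
    (f : ι → Fin d → Space d) (a : ι → Space d) : ℝ≥0∞ :=
  ∫⁻ y, (∑ i, (box N (nor (ω i)) (f i) (a i)).indicator (fun _ => (1 : ℝ≥0∞)) y) ^ p

/-- `X i` are pairwise independent random vectors in `ℝ^k` with laws bounded by `A` times Lebesgue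
measure. -/
structure Shifts {k : ℕ} {Ω ι : Type} [MeasurableSpace Ω] (P : Measure Ω) (A : ℝ)
    (X : ι → Ω → Vec k) : Prop where
  one_le : 1 ≤ A
  measurable : ∀ i, Measurable (X i)
  density : ∀ i (B : Set (Vec k)), MeasurableSet B → P (X i ⁻¹' B) ≤ ENNReal.ofReal A * volume B
  indep : ∀ i j, i ≠ j → IndepFun (X i) (X j) P

/-- The mean of the `p`-th moment of the boxes with centres `a i + N² J (X i)` is at most `B` times the
`p`-th moment of the centred boxes. -/
def MeanIneq {d k : ℕ} {Ω ι : Type} [MeasurableSpace Ω] [Fintype ι] (P : Measure Ω) (B p N : ℝ)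
    (J : Vec k →ₗᵢ[ℝ] Space d) (ω : ι → Vec d) (f : ι → Fin d → Space d) (a : ι → Space d)
    (X : ι → Ω → Vec k) : Prop :=
  ∫⁻ w, moment p N ω f (fun i => a i + N ^ 2 • J (X i w)) ∂P ≤
    ENNReal.ofReal B * moment p N ω f (fun _ => 0)

open Run7.h534.Kak in
/-- **The Kakeya inequality in tube form for boxes translated at random in codimension two.** -/
theorem result (d : ℕ) (hd : 2 ≤ d) (σ κ : ℝ) (hσ : 0 < σ) (hσ1 : σ ≤ 1) (hκ : 0 < κ) :
    (∃ C : ℝ, 0 < C ∧ ∀ N : ℝ, 1 ≤ N → ∀ (ι : Type) [Fintype ι] (ω : ι → Vec d)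
      (f : ι → Fin d → Space d) (a : ι → Space d), Caps σ κ N ω f →
      ∀ (J : Vec (d - 1) →ₗᵢ[ℝ] Space d) (Ω : Type) [MeasurableSpace Ω] (P : Measure Ω)
        [IsProbabilityMeasure P] (A : ℝ) (X : ι → Ω → Vec (d - 1)), Shifts P A X →
      ∀ p : ℝ, 1 ≤ p →
        MeanIneq P (C * A * (1 + Real.log (1 + Fintype.card ι)) ^ 2) p N J ω f a X) ∧
    (∀ q : ℝ, ((d : ℝ) + 1) / d < q → ∃ C : ℝ, 0 < C ∧ ∀ N : ℝ, 1 ≤ N → ∀ (ι : Type) [Fintype ι]
      (ω : ι → Vec d) (f : ι → Fin d → Space d) (a : ι → Space d), Caps σ κ N ω f →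
      ∀ (J : Vec (d - 1) →ₗᵢ[ℝ] Space d) (Ω : Type) [MeasurableSpace Ω] (P : Measure Ω)
        [IsProbabilityMeasure P] (A : ℝ) (X : ι → Ω → Vec (d - 1)), Shifts P A X →
      ∀ p : ℝ, q ≤ p → MeanIneq P (C * A) p N J ω f a X) := by
  obtain ⟨m, rfl⟩ : ∃ m, d = m + 2 := ⟨d - 2, by omega⟩
  have hcast : ((m + 2 : ℕ) : ℝ) = (m : ℝ) + 2 := by push_cast; ring
  have hm2 : (0 : ℝ) < (m : ℝ) + 2 := by positivity
  -- the second part
  have part2 : ∀ q : ℝ, (((m + 2 : ℕ) : ℝ) + 1) / ((m + 2 : ℕ) : ℝ) < q → ∃ C : ℝ, 0 < C ∧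
      ∀ N : ℝ, 1 ≤ N → ∀ (ι : Type) [Fintype ι]
      (ω : ι → Vec (m + 2)) (f : ι → Fin (m + 2) → Space (m + 2)) (a : ι → Space (m + 2)),
      Caps σ κ N ω f →
      ∀ (J : Vec (m + 1) →ₗᵢ[ℝ] Space (m + 2)) (Ω : Type) [MeasurableSpace Ω] (P : Measure Ω)
        [IsProbabilityMeasure P] (A : ℝ) (X : ι → Ω → Vec (m + 1)), Shifts P A X →
      ∀ p : ℝ, q ≤ p → MeanIneq P (C * A) p N J ω f a X := by
    intro q hq
    rw [hcast] at hq
    have hq' : ((m : ℝ) + 3) / ((m : ℝ) + 2) < q := by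
      have : ((m : ℝ) + 2) + 1 = (m : ℝ) + 3 := by ring
      rwa [this] at hq
    have hq0 : 0 < q := lt_trans (by positivity) hq'
    obtain ⟨E, hE, h⟩ := mean_full m hq' hσ hσ1
    have hw0 : 0 < Pool.Agent.H810R3.Tub.wv (m + 2) := Pool.Agent.H810R3.Tub.wv_pos _
    refine ⟨E * κ ^ (-(1 / ((m : ℝ) + 2))) * 2 ^ (m + 2 + 1) / Pool.Agent.H810R3.Tub.wv (m + 2),
      by positivity, ?_⟩
    intro N hN ι _ ω f a hcaps J Ω _ P _ A X hX p hp
    have hN0 : 0 < N := by linarith
    have hA0 : 0 < A := by linarith [hX.one_le]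
    have hc0 : (0 : ℝ) < (Fintype.card ι : ℝ) := lt_of_lt_of_le (by positivity) hcaps.2.2.1
    have hne : Nonempty ι := by
      rw [← Fintype.card_pos_iff]
      exact_mod_cast hc0
    have hS : Sh m P σ A N ω f X := ⟨hX.one_le, hN, hcaps.1, hcaps.2.1, hcaps.2.2.2,
      hX.measurable, hX.density, hX.indep⟩
    have h1 := h J Ω ι P A N ω f a X hS
    have h2 := mean_mono P hp hq0 N J ω f a X
    have h3 := centred_large (q := p) hN (by linarith) ω f hcaps.2.2.2
    show mean P p N J ω f a X ≤ _ * ∫⁻ y, Pool.Agent.H810R3.Tub.Fb N ω f (fun _ => 0) y ^ p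
    refine h2.trans ((mul_le_mul' le_rfl h1).trans (le_trans ?_ (mul_le_mul' le_rfl h3)))
    rw [← ENNReal.ofReal_mul (by positivity), ← ENNReal.ofReal_mul (by positivity)]
    apply ENNReal.ofReal_le_ofReal
    set c : ℝ := (Fintype.card ι : ℝ) with hc
    have h4 := Pool.Agent.H810R3.Tub.rpow_c (d := m + 2) (by rw [hcast]; exact hm2) hN0 hκ
      hcaps.2.2.1 q
    rw [hcast] at h4
    have e1 : c ^ (p - q) * c ^ q = c ^ p := by
      rw [← Real.rpow_add hc0]
      congr 1
      ring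
    have e3 : N ^ (m + 2 + 2) * N ^ (-1 : ℝ) = N ^ (m + 2 + 1) := by
      rw [Real.rpow_neg_one, pow_succ N (m + 2 + 1)]
      field_simp
    calc c ^ (p - q) * (E * A * N ^ (m + 2 + 2) * c ^ (q - 1 / ((m : ℝ) + 2)))
        ≤ c ^ (p - q) * (E * A * N ^ (m + 2 + 2) *
          (c ^ q * (κ ^ (-(1 / ((m : ℝ) + 2))) * N ^ (-1 : ℝ)))) := by gcongr
      _ = E * A * κ ^ (-(1 / ((m : ℝ) + 2))) * (c ^ (p - q) * c ^ q) *
          (N ^ (m + 2 + 2) * N ^ (-1 : ℝ)) := by ring
      _ = E * A * κ ^ (-(1 / ((m : ℝ) + 2))) * c ^ p * N ^ (m + 2 + 1) := by rw [e1, e3]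
      _ = _ := by
          rw [div_pow]
          field_simp
  constructor
  · obtain ⟨C₁, hC₁, h1⟩ := part2 2 (by
      rw [hcast, div_lt_iff₀ hm2]
      have : (0:ℝ) ≤ m := Nat.cast_nonneg m
      linarith)
    obtain ⟨C₂, hC₂, h2⟩ := mean_log m hσ hσ1
    refine ⟨max C₁ C₂, lt_max_of_lt_left hC₁, ?_⟩
    intro N hN ι _ ω f a hcaps J Ω _ P _ A X hX p hp
    have hN0 : 0 < N := by linarith
    have hA0 : 0 < A := by linarith [hX.one_le]
    have hlog : 1 ≤ (1 + Real.log (1 + (Fintype.card ι : ℝ))) ^ 2 := by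
      have h3 : 0 ≤ Real.log (1 + (Fintype.card ι : ℝ)) :=
        Real.log_nonneg (by have : (0:ℝ) ≤ (Fintype.card ι : ℝ) := Nat.cast_nonneg _; linarith)
      exact one_le_pow₀ (by linarith)
    rcases le_total 2 p with hp2 | hp2
    · have h3 := h1 N hN ι ω f a hcaps J Ω P A X hX p hp2
      refine h3.trans (mul_le_mul' (ENNReal.ofReal_le_ofReal ?_) le_rfl)
      calc C₁ * A = C₁ * A * 1 := (mul_one _).symm
        _ ≤ max C₁ C₂ * A * (1 + Real.log (1 + (Fintype.card ι : ℝ))) ^ 2 := by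
          gcongr
          exact le_max_left _ _
    · have hS : Sh m P σ A N ω f X := ⟨hX.one_le, hN, hcaps.1, hcaps.2.1, hcaps.2.2.2,
        hX.measurable, hX.density, hX.indep⟩
      have h3 := h2 J Ω ι P A N ω f a X hS p hp hp2
      have h4 := centred_one (q := p) hN hp ω f hcaps.2.2.2
      show mean P p N J ω f a X ≤ _ * ∫⁻ y, Pool.Agent.H810R3.Tub.Fb N ω f (fun _ => 0) y ^ p
      refine h3.trans (le_trans ?_ (mul_le_mul' le_rfl h4))
      rw [← ENNReal.ofReal_mul (by positivity)]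
      apply ENNReal.ofReal_le_ofReal
      calc C₂ * A * (1 + Real.log (1 + (Fintype.card ι : ℝ))) ^ 2 *
            (N ^ (m + 2 + 2) * (Fintype.card ι : ℝ))
          ≤ max C₁ C₂ * A * (1 + Real.log (1 + (Fintype.card ι : ℝ))) ^ 2 *
            (N ^ (m + 2 + 2) * (Fintype.card ι : ℝ)) := by
            gcongr
            exact le_max_right _ _
        _ = _ := by ring
  · exact part2

end Pool.Agent.Results.MP_ac5134_an.RandomTranslates
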