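import Pool.Agent.Run7.h534.Kak.Push

set_option autoImplicit false

/-!
# MP_ac5134: the Kakeya inequality in tube form for translates in definable (tame) classes of lines

Work in `ℝ^n = ℝ^d × ℝ`, `n = d + 1 ≥ 2`, with its Euclidean norm (`Space d`), and let `P` be the
paraboloid `{(ω, |ω|²)}`, `|ω| ≤ 1`.  The box dual to the cap at `ω` is `box N (nor ω) f 0`: its long
side `N²` is in the direction of the unit normal `nor ω = (-2ω, 1)/√(1+4|ω|²)` and its other sides `N`
are in the directions of an arbitrary orthonormal frame `f` of the orthogonal complement.  The axis of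
the box with centre `a` meets the hyperplane of height `0` in the point `(pos ω a, 0)`.

Let an o-minimal expansion of the field of real numbers be given (for instance the real field itself,
the field with restricted analytic functions, the field with the exponential function or with all
Pfaffian functions), and a definable family of classes of lines: for each parameter `s ∈ ℝ^m` and each
`w ∈ ℝ^d` a set `lines G s w` of positions of lines with the direction of the normal at `w`.  The
classes may have several lines in one direction and none in another one, they may be discontinuous and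
arbitrarily steep, and the parameter `s` may depend on `N` in any way (so that the class may also be
scaled arbitrarily).  Consider the systems of translates, with centres of height at most `S N²`, for
which there is a parameter `s` such that

* either for a proportion at least `θ > 0` of the `w` at distance `< σ/(16N)` of `ω i` (where `σ/N` is
  the separation of the centres of the caps) there are only finitely many lines in the class with
  parameter `s` at `w`, one of them at distance at most `K N` of the axis of the box `i`,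
* or this class is `Λ N²`-Lipschitz as a multi-valued function of `w` and the axis of each box `i` is
  at distance at most `K N` of a line of the class with the same direction.

1. The inequality of Q1 holds for all these systems and for all `p` in `[1, ∞]`, with one constant
   `C N^ε`, for every `ε > 0`;
2. for every `q > n/(n-1)` it holds for all `p` in `[q, ∞]` with one constant `C`, without any loss.
-/

open MeasureTheory Set Filter Topology ENNReal NNReal Metric

namespace Pool.Agent.Results.MP_ac5134_an.TameTranslates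

universe u v

/-- Euclidean space `ℝ^d`. -/
abbrev Vec (d : ℕ) : Type := EuclideanSpace ℝ (Fin d)

/-- Euclidean space `ℝ^{d+1}`, written as `ℝ^d × ℝ` with the Euclidean norm. -/
abbrev Space (d : ℕ) : Type := WithLp 2 (Vec d × ℝ)

/-- The unit vector `(v, 1)/√(1+|v|²)`. -/
noncomputable def dir {d : ℕ} (v : Vec d) : Space d :=
  (√(1 + ‖v‖ ^ 2))⁻¹ • WithLp.toLp 2 (v, (1:ℝ))

/-- The unit normal `(-2ω, 1)/√(1+4|ω|²)` of the paraboloid at the point `(ω, |ω|²)`. -/
noncomputable def nor {d : ℕ} (ω : Vec d) : Space d := dir (-(2 : ℝ) • ω)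

/-- The box with centre `a`, side `N²` in the direction `e` and sides `N` in the directions `f j`. -/
def box {d : ℕ} (N : ℝ) (e : Space d) (f : Fin d → Space d) (a : Space d) : Set (Space d) :=
  {y | |inner ℝ e (y - a)| ≤ N ^ 2 / 2 ∧ ∀ j, |inner ℝ (f j) (y - a)| ≤ N / 2}

/-- The caps have centres `ω i` in the closed unit ball, `σ/N`-separated and at least `κ N^d` in
number, and `f i` is an orthonormal frame of the orthogonal complement of the normal at `ω i`. -/
def Caps {d : ℕ} {ι : Type} [Fintype ι] (σ κ N : ℝ) (ω : ι → Vec d) (f : ι → Fin d → Space d) : Prop :=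
  (∀ i, ‖ω i‖ ≤ 1) ∧ (∀ i j, i ≠ j → σ / N ≤ ‖ω i - ω j‖) ∧ κ * N ^ d ≤ (Fintype.card ι : ℝ) ∧
    ∀ i, Orthonormal ℝ (Fin.cons (nor (ω i)) (f i) : Fin (d + 1) → Space d)

/-- The sum of the indicators of the boxes of the caps with centres `a i`. -/
noncomputable def boxSum {d : ℕ} {ι : Type} [Fintype ι] (N : ℝ) (ω : ι → Vec d)
    (f : ι → Fin d → Space d) (a : ι → Space d) (y : Space d) : ℝ :=
  ∑ i, (box N (nor (ω i)) (f i) (a i)).indicator (fun _ => (1 : ℝ)) y

/-- The inequality of Q1 with the constant `C` at the exponent `p`, for the boxes with centres `a i`. -/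
def Ineq {d : ℕ} {ι : Type} [Fintype ι] (C N : ℝ) (p : ℝ≥0∞) (ω : ι → Vec d)
    (f : ι → Fin d → Space d) (a : ι → Space d) : Prop :=
  eLpNorm (boxSum N ω f a) p volume ≤ ENNReal.ofReal C * eLpNorm (boxSum N ω f 0) p volume

/-- The structure on `ℝ` is an o-minimal expansion of the field of real numbers: the order, the
addition and the multiplication are definable, and every definable set of real numbers is the union
of finitely many order connected sets, that is, of points and intervals.  (Definable means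
definable with parameters.) -/
structure OMinimal (L : FirstOrder.Language.{u, v}) [L.Structure ℝ] : Prop where
  /-- the order is definable -/
  lt : (univ : Set ℝ).Definable L {x : Fin 2 → ℝ | x 0 < x 1}
  /-- the addition is definable -/
  add : (univ : Set ℝ).Definable L {x : Fin 3 → ℝ | x 0 + x 1 = x 2}
  /-- the multiplication is definable -/
  mul : (univ : Set ℝ).Definable L {x : Fin 3 → ℝ | x 0 * x 1 = x 2}
  /-- definable sets of real numbers are finite unions of points and intervals -/
  finite_union : ∀ S : Set ℝ, (univ : Set ℝ).Definable L {x : Fin 1 → ℝ | x 0 ∈ S} →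
    ∃ F : Set (Set ℝ), F.Finite ∧ (∀ I ∈ F, I.OrdConnected) ∧ S = ⋃₀ F

/-- The positions (at height `0`) of the lines of the class with parameter `s` which have the
direction of the normal at `w`. -/
def lines {m d : ℕ} (G : Set (Fin m ⊕ Fin d ⊕ Fin d → ℝ)) (s : Fin m → ℝ) (w : Vec d) :
    Set (Vec d) :=
  {x | (Sum.elim s (Sum.elim w.ofLp x.ofLp) : Fin m ⊕ Fin d ⊕ Fin d → ℝ) ∈ G}

/-- The point of the hyperplane of height `0` on the line through `a = (x, t)` with the direction
`(-2ω, 1)` of the normal at `ω`, that is, `x + 2 t ω`. -/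
noncomputable def pos {d : ℕ} (ω : Vec d) (a : Space d) : Vec d := a.fst + (2 * a.snd) • ω

/-- The translates with centres `a i` belong to the class `ℒ` of lines in proportion `θ`: for a
proportion at least `θ` of the `w` at distance `< ρ` of `ω i` there are only finitely many lines of
the class at `w`, and the position of one of them is at distance at most `k` of the one of the axis of
the box `i`. -/
def InProportion {d : ℕ} {ι : Type} (θ ρ k : ℝ) (ℒ : Vec d → Set (Vec d)) (ω : ι → Vec d)
    (a : ι → Space d) : Prop :=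
  ∀ i, ENNReal.ofReal θ * volume (ball (ω i) ρ) ≤
    volume {w | ‖w - ω i‖ < ρ ∧ (ℒ w).Finite ∧ ∃ x ∈ ℒ w, ‖pos (ω i) (a i) - x‖ ≤ k}

/-- The class `ℒ` is `lam`-Lipschitz near the unit ball, as a multi-valued function: if `x` is the
position of a line at `v`, `|v| ≤ 1`, then at every `w`, `|w - v| < 1/2`, there are only finitely many
lines, and the position of one of them is at distance at most `lam |w - v|` of `x`. -/
def LipschitzClass {d : ℕ} (lam : ℝ) (ℒ : Vec d → Set (Vec d)) : Prop :=
  ∀ v w : Vec d, ‖v‖ ≤ 1 → ‖w - v‖ < 1 / 2 → (ℒ w).Finite ∧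
    ∀ x ∈ ℒ v, ∃ x' ∈ ℒ w, ‖x - x'‖ ≤ lam * ‖w - v‖

/-- The centres have height at most `S N²`, and for some parameter `s` the translates belong to the
class with parameter `s` in proportion `θ`, up to errors `K N`, or this class is `Λ N²`-Lipschitz and
all the axes are, up to errors `K N`, lines of the class. -/
def Tame {m d : ℕ} {ι : Type} (G : Set (Fin m ⊕ Fin d ⊕ Fin d → ℝ)) (σ θ K Λ S N : ℝ)
    (ω : ι → Vec d) (a : ι → Space d) : Prop :=
  (∀ i, |(a i).snd| ≤ S * N ^ 2) ∧ ∃ s : Fin m → ℝ,
    InProportion θ (σ / (16 * N)) (K * N) (lines G s) ω a ∨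
    (LipschitzClass (Λ * N ^ 2) (lines G s) ∧
      ∀ i, ∃ x ∈ lines G s (ω i), ‖pos (ω i) (a i) - x‖ ≤ K * N)

/-- **The Kakeya inequality in tube form for translates in definable classes of lines**,
`n = d + 1 ≥ 2`: all exponents with the loss `N ^ ε`, all large exponents without loss. -/
theorem result (d : ℕ) (hd : 1 ≤ d) (L : FirstOrder.Language.{u, v}) [L.Structure ℝ]
    (hL : OMinimal L) (m : ℕ) (G : Set (Fin m ⊕ Fin d ⊕ Fin d → ℝ))
    (hG : (univ : Set ℝ).Definable L G) (σ κ θ K Λ S : ℝ) (hσ : 0 < σ) (hσ1 : σ ≤ 1) (hκ : 0 < κ)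
    (hθ : 0 < θ) (hθ1 : θ ≤ 1) (hK : 0 ≤ K) (hΛ : 0 ≤ Λ) (hS : 0 ≤ S) :
    (∀ ε : ℝ, 0 < ε → ∃ C : ℝ, 0 < C ∧ ∀ N : ℝ, 1 ≤ N → ∀ (ι : Type) [Fintype ι] (ω : ι → Vec d)
      (f : ι → Fin d → Space d) (a : ι → Space d), Caps σ κ N ω f → Tame G σ θ K Λ S N ω a →
      ∀ p : ℝ≥0∞, 1 ≤ p → Ineq (C * N ^ ε) N p ω f a) ∧
    (∀ q : ℝ, ((d : ℝ) + 1) / d < q → ∃ C : ℝ, 0 < C ∧ ∀ N : ℝ, 1 ≤ N → ∀ (ι : Type) [Fintype ι]
      (ω : ι → Vec d) (f : ι → Fin d → Space d) (a : ι → Space d), Caps σ κ N ω f →
      Tame G σ θ K Λ S N ω a → ∀ p : ℝ≥0∞, ENNReal.ofReal q ≤ p → Ineq C N p ω f a) := by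
  have : Run7.h860.Om.OMin L := ⟨hL.lt, hL.add, hL.mul, hL.finite_union⟩
  open Run7.h860.Om Run7.h860.Kk in
  have hGD : DPred L (fun z : Fin m ⊕ Fin d ⊕ Fin d → ℝ => z ∈ G) := hG
  have helim : Run7.h860.Om.DFun L (fun p : ((Fin m → ℝ) × (Fin d → ℝ)) × (Fin d → ℝ) =>
      (Sum.elim p.1.1 (Sum.elim p.1.2 p.2) : Fin m ⊕ Fin d ⊕ Fin d → ℝ)) := by
    refine Run7.h860.Om.DFun.pi fun i => ?_
    rcases i with i | i | i
    · simp only [Sum.elim_inl]; fun_prop
    · simp only [Sum.elim_inl, Sum.elim_inr]; fun_prop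
    · simp only [Sum.elim_inr]; fun_prop
  set Q : Set (((Fin m → ℝ) × (Fin d → ℝ)) × (Fin d → ℝ)) :=
    {p | (Sum.elim p.1.1 (Sum.elim p.1.2 p.2) : Fin m ⊕ Fin d ⊕ Fin d → ℝ) ∈ G} with hQ
  have hQD : Run7.h860.Om.DPred L (fun p => p ∈ Q) := hGD.mem helim
  obtain ⟨K₀, g, hg, -, hgK⟩ := Run7.h860.Om.exists_branches (L := L) hQD
  set g' : ℕ → ((Fin m → ℝ) × ℝ) × (Fin d → ℝ) → Fin d → ℝ :=
    fun k p j => p.1.2 * g k (p.1.1, p.2) j with hg'
  have hg'D : ∀ k, Run7.h860.Om.DFun L (g' k) := by
    intro k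
    have := hg k
    refine Run7.h860.Om.DFun.pi fun j => ?_
    show Run7.h860.Om.DFun L (fun p : ((Fin m → ℝ) × ℝ) × (Fin d → ℝ) =>
      p.1.2 * g k (p.1.1, p.2) j)
    fun_prop
  obtain ⟨M, hM⟩ := Run7.h534.Kak.tubes_branches (L := L) (Γ := (Fin m → ℝ) × ℝ) hd K₀ hg'D
  have hd0 : (0 : ℝ) < d := by exact_mod_cast hd
  have hP : Run7.h534.Cmp.Moments d (fun (N : ℝ) (ι : Type) [Fintype ι] (ω : ι → Vec d)
      (f : ι → Fin d → Space d) (a : ι → Space d) => (∀ i, ‖ω i‖ ≤ 1) ∧
        (∀ i j, i ≠ j → σ / N ≤ ‖ω i - ω j‖) ∧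
        (∀ i, Orthonormal ℝ (Fin.cons (nor (ω i)) (f i) : Fin (d + 1) → Space d)) ∧
        Tame G σ θ K Λ S N ω a) := by
    intro q hq
    have hq0 : 0 < q := lt_trans (by positivity) hq
    set A : ℝ := Run7.h534.Kak.cT d q * M * θ ^ (-(1 / (q * d))) *
      (1 + (K + Λ) + S) ^ ((d + 1) / q) with hA
    have hcT := Run7.h534.Kak.cT_pos d q
    have hA0 : 0 ≤ A := by positivity
    refine ⟨4 * (1 + d) ^ (d + 1) / σ * A ^ q + 1, by positivity, ?_⟩
    intro N hN ι _ _ ω f a hPa
    obtain ⟨h1, h2, h3, h4, s, h5⟩ := hPa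
    have hN0 : 0 < N := by linarith
    set c := Run7.h534.Kak.cc d σ N with hc
    have hc0 : 0 < c := Run7.h534.Kak.cc_pos d hσ hN
    set δ : ℝ := σ / (8 * N) with hδ
    have hδ0 : 0 < δ := by positivity
    have hδ1 : δ < 1 := by
      rw [hδ, div_lt_one (by positivity)]
      linarith
    have hcN : c / 2 * N ≤ δ := by
      have e : c / 2 * N = δ / (1 + d) := by
        rw [hc, Run7.h534.Kak.cc, hδ]; field_simp; ring
      rw [e]
      apply div_le_self hδ0.le
      linarith
    have hcN2 : c * N ^ 2 ≤ 1 := by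
      have e : c * N ^ 2 = σ / (4 * (1 + d)) := by
        rw [hc, Run7.h534.Kak.cc]; field_simp
      rw [e, div_le_one (by positivity)]
      linarith
    have hδ2 : δ / 2 = σ / (16 * N) := by rw [hδ]; ring
    -- the proportion
    have hprop : InProportion θ (σ / (16 * N)) ((K + Λ) * N) (lines G s) ω a := by
      rcases h5 with h5 | ⟨h5, h6⟩
      · intro i
        refine (h5 i).trans (measure_mono ?_)
        rintro w ⟨hw1, hw2, x, hx, hx2⟩
        refine ⟨hw1, hw2, x, hx, hx2.trans ?_⟩
        nlinarith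
      · intro i
        have hle : ENNReal.ofReal θ * volume (ball (ω i) (σ / (16 * N))) ≤
            volume (ball (ω i) (σ / (16 * N))) := by
          calc _ ≤ 1 * volume (ball (ω i) (σ / (16 * N))) := by
                gcongr
                rw [← ENNReal.ofReal_one]
                exact ENNReal.ofReal_le_ofReal hθ1
            _ = _ := one_mul _
        refine hle.trans (measure_mono ?_)
        intro w hw
        rw [mem_ball, dist_eq_norm] at hw
        obtain ⟨x, hx, hx2⟩ := h6 i
        have hρ : σ / (16 * N) ≤ 1 / 16 := by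
          rw [div_le_div_iff₀ (by positivity) (by norm_num)]
          nlinarith
        obtain ⟨h7, h8⟩ := h5 (ω i) w (h1 i) (by linarith)
        obtain ⟨x', hx', hx'2⟩ := h8 x hx
        refine ⟨hw, h7, x', hx', ?_⟩
        have h9 : Λ * N ^ 2 * ‖w - ω i‖ ≤ Λ * N := by
          calc Λ * N ^ 2 * ‖w - ω i‖ ≤ Λ * N ^ 2 * (σ / (16 * N)) := by gcongr
            _ = Λ * N * (σ / 16) := by field_simp
            _ ≤ Λ * N * 1 := by
                gcongr
                linarith
            _ = _ := mul_one _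
        calc ‖pos (ω i) (a i) - x'‖ = ‖(pos (ω i) (a i) - x) + (x - x')‖ := by congr 1; abel
          _ ≤ ‖pos (ω i) (a i) - x‖ + ‖x - x'‖ := norm_add_le _ _
          _ ≤ K * N + Λ * N := by linarith
          _ = (K + Λ) * N := by ring
    have hT := hM (s, -(c / 2)) q hq ⟨K + Λ, by positivity⟩ ⟨S, hS⟩ θ δ hθ hδ0 hδ1 ι ω
      (fun i => -(c / 2) • Run7.h534.Kak.pos (ω i) (a i)) (fun i => c * (a i).snd) (fun _ => 1)
      h1 (by
        intro i
        rw [abs_mul, abs_of_pos hc0]
        calc c * |(a i).snd| ≤ c * (S * N ^ 2) := mul_le_mul_of_nonneg_left (h4 i) hc0.le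
          _ = S * (c * N ^ 2) := by ring
          _ ≤ S * 1 := mul_le_mul_of_nonneg_left hcN2 hS
          _ = S := mul_one _) (by
        intro i j hij
        have h6 := Run7.h534.Cv.dir_lower (v := ω i) (w := ω j) ((h1 i).trans one_le_two)
          ((h1 j).trans one_le_two)
        have h7 := h2 i j hij
        have h8 : δ = σ / N / 8 := by rw [hδ]; field_simp
        rw [h8]
        linarith) (by
        intro i
        rw [hδ2]
        refine (hprop i).trans (measure_mono ?_)
        rintro w ⟨hw1, hw2, x, hx, hx2⟩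
        refine ⟨hw1, ?_⟩
        have hfin : {z | ((s, w.ofLp), z) ∈ Q}.Finite := by
          refine (hw2.image (fun z : Vec d => z.ofLp)).subset ?_
          intro z hz
          exact ⟨WithLp.toLp 2 z, hz, rfl⟩
        obtain ⟨k, hk, hxk⟩ := hgK (s, w.ofLp) hfin x.ofLp hx
        refine ⟨k, hk, ?_⟩
        have hxx : Run7.h860.Kk.lift (fun v => g' k ((s, -(c / 2)), v)) w = -(c / 2) • x := by
          show (WithLp.toLp 2 (g' k ((s, -(c / 2)), w.ofLp)) : Vec d) = _
          ext j
          show -(c / 2) * g k (s, w.ofLp) j = -(c / 2) * x.ofLp j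
          rw [← hxk]
        rw [hxx, ← smul_sub, norm_smul, norm_neg, Real.norm_of_nonneg (by positivity)]
        calc c / 2 * ‖Run7.h534.Kak.pos (ω i) (a i) - x‖ ≤ c / 2 * ((K + Λ) * N) :=
              mul_le_mul_of_nonneg_left hx2 (by positivity)
          _ = (K + Λ) * (c / 2 * N) := by ring
          _ ≤ (K + Λ) * δ := by gcongr)
    have hsum : (∑ i : ι, |(fun _ : ι => (1:ℝ)) i| ^ (q * d / (q * d - 1)))
        = (Fintype.card ι : ℝ) := by
      simp
    rw [hsum] at hT
    have hT' : eLpNorm (Run7.h534.Kak.tsum (σ / (8 * N)) ω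
        (fun i => -(c / 2) • Run7.h534.Kak.pos (ω i) (a i))
        (fun i => c * (a i).snd) (fun _ => 1)) (ENNReal.ofReal q) volume
        ≤ ENNReal.ofReal (A * (σ / (8 * N)) ^ (d / q) *
          (Fintype.card ι : ℝ) ^ (1 - 1 / (q * d))) := hT
    refine (Run7.h534.Kak.push_tubes hd hq hσ hσ1 hA0 hN ω f a h3 hT').trans
      (ENNReal.ofReal_le_ofReal ?_)
    gcongr
    linarith
  constructor
  · intro ε hε
    obtain ⟨C, hC, h⟩ := Run7.h534.Cmp.compare_all hd hP hε hκ
    refine ⟨C, hC, ?_⟩
    intro N hN ι _ ω f a hcaps htame p hp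
    exact h N hN ι ω f a ⟨hcaps.1, hcaps.2.1, hcaps.2.2.2, htame⟩ hcaps.2.2.1 hcaps.2.2.2 p hp
  · intro q hq
    obtain ⟨C, hC, h⟩ := Run7.h534.Cmp.compare_sharp hd hP hq hκ
    refine ⟨C, hC, ?_⟩
    intro N hN ι _ ω f a hcaps htame p hp
    exact h N hN ι ω f a ⟨hcaps.1, hcaps.2.1, hcaps.2.2.2, htame⟩ hcaps.2.2.1 hcaps.2.2.2 p hp

end Pool.Agent.Results.MP_ac5134_an.TameTranslates
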