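import Pool.Agent.Run7.h534.Cv.Mom
import Pool.Agent.Run7.h534.Cv.Cmp

set_option autoImplicit false

/-!
# MP_ac5134: the Kakeya inequality in tube form for translates that meet curves of finite order

Work in `ℝ^n = ℝ^d × ℝ`, `n = d + 1 ≥ 3`, with its Euclidean norm (`Space d`), and let `P` be the
paraboloid `{(ω, |ω|²)}`, `|ω| ≤ 1`.  The box dual to the cap at `ω` is `box N (nor ω) f 0`: its long
side `N²` is in the direction of the unit normal `nor ω = (-2ω, 1)/√(1+4|ω|²)` and its other sides `N`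
are in the directions of an arbitrary orthonormal frame `f` of the orthogonal complement.

A continuous curve is of order at most `N₀` if for every `ν ≠ 0` almost every hyperplane orthogonal
to `ν` meets it at most `N₀` times.  Let the boxes be translated so that the axis of each of them
passes at distance at most `K N` of some point of the union of `m` curves of order at most `N₀`, at
distance at most `S N²` along the axis from the centre of the box; nothing else is supposed, the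
curves may depend on `N`, and arbitrarily many boxes may pass through the same point.  Then

1. the inequality of Q1 holds for all `p` in `[1, ∞]`, with one constant `C N^ε`, for every `ε > 0`;
2. for every `q > n/(n-1)` it holds for all `p` in `[q, ∞]` with one constant `C`, without any loss.
-/

open MeasureTheory Set Filter Topology ENNReal NNReal Metric

namespace Pool.Agent.Results.MP_ac5134_an.TranslatesMeetingCurves

/-- Euclidean space `ℝ^d`. -/
abbrev Vec (d : ℕ) : Type := EuclideanSpace ℝ (Fin d)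

/-- Euclidean space `ℝ^{d+1}`, written as `ℝ^d × ℝ` with the Euclidean norm. -/
abbrev Space (d : ℕ) : Type := WithLp 2 (Vec d × ℝ)

/-- The unit vector `(v, 1)/√(1+|v|²)`. -/
noncomputable def dir {d : ℕ} (v : Vec d) : Space d :=
  (√(1 + ‖v‖ ^ 2))⁻¹ • WithLp.toLp 2 (v, (1:ℝ))

/-- The unit normal `(-2ω, 1)/√(1+4|ω|²)` of the paraboloid at the point `(ω, |ω|²)`. -/
noncomputable def nor {d : ℕ} (ω : Vec d) : Space d := dir (-(2 : ℝ) • ω)

/-- The box with centre `a`, side `N²` in the direction `e` and sides `N` in the directions `f j`. -/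
def box {d : ℕ} (N : ℝ) (e : Space d) (f : Fin d → Space d) (a : Space d) : Set (Space d) :=
  {y | |inner ℝ e (y - a)| ≤ N ^ 2 / 2 ∧ ∀ j, |inner ℝ (f j) (y - a)| ≤ N / 2}

/-- The caps have centres `ω i` in the closed unit ball, `σ/N`-separated and at least `κ N^d` in
number, and `f i` is an orthonormal frame of the orthogonal complement of the normal at `ω i`. -/
def Caps {d : ℕ} {ι : Type} [Fintype ι] (σ κ N : ℝ) (ω : ι → Vec d) (f : ι → Fin d → Space d) : Prop :=
  (∀ i, ‖ω i‖ ≤ 1) ∧ (∀ i j, i ≠ j → σ / N ≤ ‖ω i - ω j‖) ∧ κ * N ^ d ≤ (Fintype.card ι : ℝ) ∧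
    ∀ i, Orthonormal ℝ (Fin.cons (nor (ω i)) (f i) : Fin (d + 1) → Space d)

/-- The sum of the indicators of the boxes of the caps with centres `a i`. -/
noncomputable def boxSum {d : ℕ} {ι : Type} [Fintype ι] (N : ℝ) (ω : ι → Vec d)
    (f : ι → Fin d → Space d) (a : ι → Space d) (y : Space d) : ℝ :=
  ∑ i, (box N (nor (ω i)) (f i) (a i)).indicator (fun _ => (1 : ℝ)) y

/-- The inequality of Q1 with the constant `C` at the exponent `p`, for the boxes with centres `a i`. -/
def Ineq {d : ℕ} {ι : Type} [Fintype ι] (C N : ℝ) (p : ℝ≥0∞) (ω : ι → Vec d)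
    (f : ι → Fin d → Space d) (a : ι → Space d) : Prop :=
  eLpNorm (boxSum N ω f a) p volume ≤ ENNReal.ofReal C * eLpNorm (boxSum N ω f 0) p volume

/-- The curve `γ` is continuous and of order at most `N₀`: for every `ν ≠ 0`, almost every hyperplane
orthogonal to `ν` meets the curve at most `N₀` times. -/
def CurveOfOrder {d : ℕ} (N₀ : ℕ) (γ : ℝ → Space d) : Prop :=
  Continuous γ ∧ ∀ ν : Space d, ν ≠ 0 → ∀ᵐ c : ℝ, {t : ℝ | inner ℝ ν (γ t) = c}.encard ≤ N₀

/-- There are `m` curves of order at most `N₀` such that the axis of each of the boxes (centre `a i`,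
direction `nor (ω i)`) passes at distance at most `K N` of a point of one of them, at distance at most
`S N²` along the axis from the centre of the box. -/
def MeetCurves {d : ℕ} {ι : Type} (m N₀ : ℕ) (K S N : ℝ) (ω : ι → Vec d) (a : ι → Space d) : Prop :=
  ∃ γ : Fin m → ℝ → Space d, (∀ k, CurveOfOrder N₀ (γ k)) ∧
    ∀ i, ∃ k t, |inner ℝ (a i - γ k t) (nor (ω i))| ≤ S * N ^ 2 ∧
      ‖(a i - γ k t) - (inner ℝ (a i - γ k t) (nor (ω i)) : ℝ) • nor (ω i)‖ ≤ K * N

/-- **The Kakeya inequality in tube form for translates that meet curves of finite order**,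
`n = d + 1 ≥ 3`: all exponents with the loss `N ^ ε`, all large exponents without loss. -/
theorem result (d : ℕ) (hd : 2 ≤ d) (m N₀ : ℕ) (K S σ κ : ℝ) (hK : 0 ≤ K) (hS : 0 ≤ S)
    (hσ : 0 < σ) (hσ1 : σ ≤ 1) (hκ : 0 < κ) :
    (∀ ε : ℝ, 0 < ε → ∃ C : ℝ, 0 < C ∧ ∀ N : ℝ, 1 ≤ N → ∀ (ι : Type) [Fintype ι] (ω : ι → Vec d)
      (f : ι → Fin d → Space d) (a : ι → Space d), Caps σ κ N ω f → MeetCurves m N₀ K S N ω a →
      ∀ p : ℝ≥0∞, 1 ≤ p → Ineq (C * N ^ ε) N p ω f a) ∧
    (∀ q : ℝ, ((d : ℝ) + 1) / d < q → ∃ C : ℝ, 0 < C ∧ ∀ N : ℝ, 1 ≤ N → ∀ (ι : Type) [Fintype ι]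
      (ω : ι → Vec d) (f : ι → Fin d → Space d) (a : ι → Space d), Caps σ κ N ω f →
      MeetCurves m N₀ K S N ω a → ∀ p : ℝ≥0∞, ENNReal.ofReal q ≤ p → Ineq C N p ω f a) := by
  have hP : Run7.h534.Cmp.Moments d (fun (N : ℝ) (ι : Type) [Fintype ι] (ω : ι → Vec d)
      (f : ι → Fin d → Space d) (a : ι → Space d) => (∀ i, ‖ω i‖ ≤ 1) ∧
        (∀ i j, i ≠ j → σ / N ≤ ‖ω i - ω j‖) ∧
        (∀ i, Orthonormal ℝ (Fin.cons (nor (ω i)) (f i) : Fin (d + 1) → Space d)) ∧
        MeetCurves m N₀ K S N ω a) := by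
    intro q hq
    obtain ⟨E, hE0, hE⟩ := Run7.h534.Cv.box_moment d hd q hq σ hσ hσ1 m N₀ K S hK hS
    refine ⟨E, hE0, ?_⟩
    intro N hN ι _ _ ω f a hPa
    obtain ⟨h1, h2, h3, γ, h4, h5⟩ := hPa
    exact hE γ (fun k => (h4 k).1) (fun k => (h4 k).2) N hN ι ω a f h1 h2 h3 h5
  constructor
  · intro ε hε
    obtain ⟨C, hC, h⟩ := Run7.h534.Cmp.compare_all (by omega) hP hε hκ
    refine ⟨C, hC, ?_⟩
    intro N hN ι _ ω f a hcaps hmeet p hp
    exact h N hN ι ω f a ⟨hcaps.1, hcaps.2.1, hcaps.2.2.2, hmeet⟩ hcaps.2.2.1 hcaps.2.2.2 p hp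
  · intro q hq
    obtain ⟨C, hC, h⟩ := Run7.h534.Cmp.compare_sharp (by omega) hP hq hκ
    refine ⟨C, hC, ?_⟩
    intro N hN ι _ ω f a hcaps hmeet p hp
    exact h N hN ι ω f a ⟨hcaps.1, hcaps.2.1, hcaps.2.2.2, hmeet⟩ hcaps.2.2.1 hcaps.2.2.2 p hp

end Pool.Agent.Results.MP_ac5134_an.TranslatesMeetingCurves
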